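import Mathlib
import Pool.Agent.Q31.QN.A
set_option autoImplicit false
set_option linter.unusedSimpArgs false

/-! The subgroups `PP ζ` have finite index when the field is finite. -/

namespace Q31QN
open Pool.Agent.H270.Gau (Af LamU LamU_of sub3 sub3_single Fr xx)
open H270R (W FB GW pA pB pA_apply pB_apply pA_inv pB_inv phi phi_true phi_false phi_injective phi_strong
  cc desc_pos desc_neg Pres Pres_comp Pres_inv PV PV_comp PV_id
  th L J J_PV tau tau_apply tau_pres lam Theta Theta_spec)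

theorem phi_true_zpow (t : ℤ) (x : W) : phi (FreeGroup.of true ^ t) x = (x.1 + 2 * t * x.2, x.2) := by
  have hn : ∀ (n : ℕ) (x : W), phi (FreeGroup.of true ^ n) x = (x.1 + 2 * n * x.2, x.2) := by
    intro n
    induction n with
    | zero => intro x; simp
    | succ n ih =>
      intro x
      rw [pow_succ, map_mul]
      show phi (FreeGroup.of true ^ n) (phi (FreeGroup.of true) x) = _
      rw [ih, phi_true, pA_apply]
      ext
      · push_cast; ring
      · rfl
  obtain ⟨n, rfl | rfl⟩ := t.eq_nat_or_neg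
  · rw [zpow_natCast, hn]
  · rw [zpow_neg, zpow_natCast, map_inv]
    have h := hn n (x.1 + 2 * (-(n : ℤ)) * x.2, x.2)
    have e : phi (FreeGroup.of true ^ n) (x.1 + 2 * (-(n : ℤ)) * x.2, x.2) = x := by
      rw [h]
      ext
      · show x.1 + 2 * (-(n : ℤ)) * x.2 + 2 * n * x.2 = x.1
        ring
      · rfl
    conv_lhs => rw [← e]
    exact (phi (FreeGroup.of true ^ n)).symm_apply_apply _

theorem descent (n : ℕ) : ∀ a b c d : ℤ, a.natAbs + c.natAbs ≤ n → a * d - b * c = 1 → Odd a →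
    Even b → Even c → ∃ u : FB, ∃ ε : ℤ, ε * ε = 1 ∧
      ∀ x : W, ((a * x.1 + b * x.2, c * x.1 + d * x.2) : W) = ε • phi u x := by
  induction n with
  | zero =>
    intro a b c d h _ ha
    have : a = 0 := by omega
    subst this
    simp at ha
  | succ n ih =>
    intro a b c d hn hdet ha hb hc
    by_cases hc0 : c = 0
    · subst hc0
      have had : a * d = 1 := by linarith
      have haa : a * a = 1 := by
        rcases Int.eq_one_or_neg_one_of_mul_eq_one had with h | h <;> rw [h] <;> norm_num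
      have hd : d = a := by
        have : a * (a * d) = a := by rw [had, mul_one]
        rw [← mul_assoc, haa, one_mul] at this
        exact this
      obtain ⟨t, ht⟩ := hb
      refine ⟨FreeGroup.of true ^ (a * t), a, haa, ?_⟩
      intro x
      rw [phi_true_zpow]
      ext
      · show a * x.1 + b * x.2 = a * (x.1 + 2 * (a * t) * x.2)
        rw [ht]
        linear_combination (-2 * t * x.2) * haa
      · show 0 * x.1 + d * x.2 = a * x.2
        rw [hd]; ring
    · have ha0 : a ≠ 0 := by rintro rfl; simp at ha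
      have hne : a.natAbs ≠ c.natAbs := by
        intro h
        rcases Int.natAbs_eq_natAbs_iff.1 h with h | h
        · rw [h] at ha
          exact (Int.not_odd_iff_even.2 hc) ha
        · rw [h, odd_neg] at ha
          exact (Int.not_odd_iff_even.2 hc) ha
      rcases lt_or_gt_of_ne hne with h | h
      · -- |a| < |c|
        have key : ∃ s : ℤ, (s = 1 ∨ s = -1) ∧ (c + 2 * s * a).natAbs < c.natAbs := by
          rcases lt_or_gt_of_ne (mul_ne_zero ha0 hc0) with hs | hs
          · exact ⟨1, Or.inl rfl, by simpa using desc_neg ha0 h hs⟩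
          · refine ⟨-1, Or.inr rfl, ?_⟩
            have := desc_pos ha0 h hs
            have e : c + 2 * -1 * a = c - 2 * a := by ring
            rwa [e]
        obtain ⟨s, hs, hlt⟩ := key
        obtain ⟨u, ε, h1, h2⟩ := ih a b (c + 2 * s * a) (d + 2 * s * b) (by omega)
          (by linear_combination hdet) ha hb (by
            rw [mul_assoc]; exact hc.add (even_two_mul _))
        rcases hs with rfl | rfl
        · refine ⟨(FreeGroup.of false)⁻¹ * u, ε, h1, ?_⟩
          intro x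
          rw [map_mul, map_inv, phi_false]
          show _ = ε • (pB⁻¹ : GW) (phi u x)
          rw [← map_smul, ← h2, pB_inv]
          ext
          · rfl
          · show c * x.1 + d * x.2 = (c + 2 * 1 * a) * x.1 + (d + 2 * 1 * b) * x.2 - 2 * (a * x.1 + b * x.2)
            ring
        · refine ⟨(FreeGroup.of false) * u, ε, h1, ?_⟩
          intro x
          rw [map_mul, phi_false]
          show _ = ε • pB (phi u x)
          rw [← map_smul, ← h2, pB_apply]
          ext
          · rfl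
          · show c * x.1 + d * x.2 = (c + 2 * -1 * a) * x.1 + (d + 2 * -1 * b) * x.2 + 2 * (a * x.1 + b * x.2)
            ring
      · have key : ∃ s : ℤ, (s = 1 ∨ s = -1) ∧ (a + 2 * s * c).natAbs < a.natAbs := by
          rcases lt_or_gt_of_ne (mul_ne_zero hc0 ha0) with hs | hs
          · exact ⟨1, Or.inl rfl, by simpa using desc_neg hc0 h hs⟩
          · refine ⟨-1, Or.inr rfl, ?_⟩
            have := desc_pos hc0 h hs
            have e : a + 2 * -1 * c = a - 2 * c := by ring
            rwa [e]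
        obtain ⟨s, hs, hlt⟩ := key
        obtain ⟨u, ε, h1, h2⟩ := ih (a + 2 * s * c) (b + 2 * s * d) c d (by omega)
          (by linear_combination hdet) (by
            rw [mul_assoc]; exact ha.add_even (even_two_mul _)) (by
            rw [mul_assoc]; exact hb.add (even_two_mul _)) hc
        rcases hs with rfl | rfl
        · refine ⟨(FreeGroup.of true)⁻¹ * u, ε, h1, ?_⟩
          intro x
          rw [map_mul, map_inv, phi_true]
          show _ = ε • (pA⁻¹ : GW) (phi u x)
          rw [← map_smul, ← h2, pA_inv]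
          ext
          · show a * x.1 + b * x.2 = (a + 2 * 1 * c) * x.1 + (b + 2 * 1 * d) * x.2 - 2 * (c * x.1 + d * x.2)
            ring
          · rfl
        · refine ⟨(FreeGroup.of true) * u, ε, h1, ?_⟩
          intro x
          rw [map_mul, phi_true]
          show _ = ε • pA (phi u x)
          rw [← map_smul, ← h2, pA_apply]
          ext
          · show a * x.1 + b * x.2 = (a + 2 * -1 * c) * x.1 + (b + 2 * -1 * d) * x.2 + 2 * (c * x.1 + d * x.2)
            ring
          · rfl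

/-- the relation between automorphisms and elements of the free group of rank two -/
def Rel (σ : MulAut Fr) (u : FB) : Prop := Pres (σ : Fr →* Fr) ∧ ∃ ε : ℤ, ε * ε = 1 ∧
  ∀ x, PV (σ : Fr →* Fr) x = ε • phi u x

theorem Rel.mul {σ τ : MulAut Fr} {u v : FB} (h : Rel σ u) (h' : Rel τ v) : Rel (σ * τ) (u * v) := by
  obtain ⟨h1, ε, h2, h3⟩ := h
  obtain ⟨h1', ε', h2', h3'⟩ := h'
  refine ⟨Pres_comp h1 h1', ε * ε', by linear_combination h2 * ε' * ε' + h2', ?_⟩
  intro x
  have : PV ((σ * τ : MulAut Fr) : Fr →* Fr) x = PV (σ : Fr →* Fr) (PV (τ : Fr →* Fr) x) :=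
    PV_comp h1 h1' x
  rw [this, h3', h3, map_smul, map_mul, smul_smul]
  rfl

theorem PV_inv_apply {σ : MulAut Fr} (h1 : Pres (σ : Fr →* Fr)) (y : W) :
    PV ((σ⁻¹ : MulAut Fr) : Fr →* Fr) (PV (σ : Fr →* Fr) y) = y := by
  rw [← PV_comp (Pres_inv h1) h1]
  have : ((σ⁻¹ : MulAut Fr) : Fr →* Fr).comp (σ : Fr →* Fr) = MonoidHom.id Fr := by
    ext g
    show (σ⁻¹ : MulAut Fr) (σ _) = _
    rw [MulAut.inv_apply_self]; rfl
  rw [this, PV_id]

theorem Rel.inv {σ : MulAut Fr} {u : FB} (h : Rel σ u) : Rel σ⁻¹ u⁻¹ := by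
  obtain ⟨h1, ε, h3, h4⟩ := h
  refine ⟨Pres_inv h1, ε, h3, ?_⟩
  intro x
  have h6 := PV_inv_apply h1 (ε • phi u⁻¹ x)
  rw [h4, map_smul, smul_smul, h3, one_smul, ← LinearEquiv.mul_apply, ← map_mul,
    mul_inv_cancel, map_one] at h6
  exact h6

theorem Rel.one : Rel 1 1 := by
  refine ⟨fun _ => rfl, 1, by norm_num, ?_⟩
  intro x
  have : PV ((1 : MulAut Fr) : Fr →* Fr) x = x := PV_id x
  rw [this]; simp

/-- the subgroup of the automorphisms preserving the character -/
def PS : Subgroup (MulAut Fr) where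
  carrier := {σ | Pres (σ : Fr →* Fr)}
  one_mem' := fun _ => rfl
  mul_mem' := fun h1 h2 => Pres_comp h1 h2
  inv_mem' := fun h => Pres_inv h

/-- the subgroup of the automorphisms related to some element -/
def PR : Subgroup (MulAut Fr) where
  carrier := {σ | ∃ u, Rel σ u}
  one_mem' := ⟨1, Rel.one⟩
  mul_mem' := by
    rintro σ τ ⟨u, h⟩ ⟨v, h'⟩
    exact ⟨_, h.mul h'⟩
  inv_mem' := by
    rintro σ ⟨u, h⟩
    exact ⟨_, h.inv⟩

/-- A criterion for finite index. -/
theorem fi_crit {G : Type} [Group G] {X : Type} [Finite X] (H K : Subgroup G) (hK : K.FiniteIndex)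
    (f : G → X) (h : ∀ a ∈ K, ∀ b ∈ K, f a = f b → a⁻¹ * b ∈ H) : H.FiniteIndex := by
  have h1 : (H.subgroupOf K).FiniteIndex := by
    have : Finite (K ⧸ H.subgroupOf K) := by
      apply Finite.of_injective (fun q : K ⧸ H.subgroupOf K => f (q.out : K))
      intro q q' hq
      have h2 := h _ (q.out : K).2 _ (q'.out : K).2 hq
      rw [← q.out_eq', ← q'.out_eq', QuotientGroup.eq]
      rw [Subgroup.mem_subgroupOf]
      exact h2
    exact Subgroup.finiteIndex_of_finite_quotient
  have h2 : (H ⊓ K).FiniteIndex := by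
    constructor
    have h3 := Subgroup.relIndex_mul_index (show H ⊓ K ≤ K from inf_le_right)
    rw [← h3]
    apply mul_ne_zero
    · rw [Subgroup.inf_relIndex_right]
      exact h1.index_ne_zero
    · exact hK.index_ne_zero
  exact Subgroup.finiteIndex_of_le (inf_le_left : H ⊓ K ≤ H)

theorem PS_fi : PS.FiniteIndex := by
  apply fi_crit PS ⊤ inferInstance (X := Fin 3 → ℤˣ) (fun σ j => th ((σ⁻¹ : MulAut Fr) (xx j)))
  intro a _ b _ hab
  have key : ∀ g : Fr, th ((a⁻¹ : MulAut Fr) g) = th ((b⁻¹ : MulAut Fr) g) := by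
    intro g
    have h1 : (fun j => th ((a⁻¹ : MulAut Fr) (xx j))) = (fun j => th ((b⁻¹ : MulAut Fr) (xx j))) := hab
    have h2 := congrArg Af.u (H270R.fundG H270R.u2 ((a⁻¹ : MulAut Fr) : Fr →* Fr) g)
    have h3 := congrArg Af.u (H270R.fundG H270R.u2 ((b⁻¹ : MulAut Fr) : Fr →* Fr) g)
    calc th ((a⁻¹ : MulAut Fr) g) = (LamU (fun j => th ((a⁻¹ : MulAut Fr) (xx j))) g).u := h2
      _ = (LamU (fun j => th ((b⁻¹ : MulAut Fr) (xx j))) g).u := by rw [h1]
      _ = th ((b⁻¹ : MulAut Fr) g) := h3.symm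
  intro g
  show th (a⁻¹ (b g)) = th g
  rw [key (b g)]
  congr 1
  exact MulAut.inv_apply_self _ _ _

/-- the matrix of the action on the twisted homology -/
def MM (σ : MulAut Fr) : Matrix (Fin 2) (Fin 2) ℤ :=
  !![(J (σ (xx 0))).1, (J (σ (xx 1))).1; (J (σ (xx 0))).2, (J (σ (xx 1))).2]

theorem PV_MM (σ : MulAut Fr) (x : W) : PV (σ : Fr →* Fr) x =
    (MM σ 0 0 * x.1 + MM σ 0 1 * x.2, MM σ 1 0 * x.1 + MM σ 1 1 * x.2) := by
  show x.1 • J (σ (xx 0)) + x.2 • J (σ (xx 1)) = _
  ext
  · simp [MM]; ring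
  · simp [MM]; ring

theorem MM_mul {σ τ : MulAut Fr} (h1 : Pres (σ : Fr →* Fr)) (h2 : Pres (τ : Fr →* Fr)) :
    MM (σ * τ) = MM σ * MM τ := by
  have key : ∀ x, PV ((σ * τ : MulAut Fr) : Fr →* Fr) x = PV (σ : Fr →* Fr) (PV (τ : Fr →* Fr) x) :=
    PV_comp h1 h2
  have k0 := key (1, 0)
  have k1 := key (0, 1)
  rw [PV_MM, PV_MM, PV_MM] at k0 k1
  simp only [mul_one, mul_zero, add_zero, zero_add, Prod.mk.injEq] at k0 k1
  ext i j
  fin_cases i <;> fin_cases j <;> simp [Matrix.mul_apply, Fin.sum_univ_two, k0, k1]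

theorem MM_one : MM 1 = 1 := by
  have key : ∀ x, PV ((1 : MulAut Fr) : Fr →* Fr) x = x := PV_id
  have k0 := key (1, 0)
  have k1 := key (0, 1)
  rw [PV_MM] at k0 k1
  simp only [mul_one, mul_zero, add_zero, zero_add, Prod.mk.injEq] at k0 k1
  ext i j
  fin_cases i <;> fin_cases j <;> simp [k0, k1]

theorem PR_fi : PR.FiniteIndex := by
  apply fi_crit PR PS PS_fi (X := Matrix (Fin 2) (Fin 2) (ZMod 4))
    (fun σ => (MM σ).map (Int.castRingHom (ZMod 4)))
  intro a ha b hb hab
  have hab' : (MM a).map (Int.castRingHom (ZMod 4)) = (MM b).map (Int.castRingHom (ZMod 4)) := hab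
  have hP : Pres ((a⁻¹ * b : MulAut Fr) : Fr →* Fr) := Pres_comp (Pres_inv ha) hb
  have h1 : (MM (a⁻¹ * b)).map (Int.castRingHom (ZMod 4)) = 1 := by
    rw [MM_mul (Pres_inv ha) hb, Matrix.map_mul, ← hab', ← Matrix.map_mul, ← MM_mul (Pres_inv ha) ha,
      inv_mul_cancel, MM_one]
    simp
  have hdet : (MM (a⁻¹ * b)).det * (MM (b⁻¹ * a)).det = 1 := by
    have e : (a⁻¹ * b) * (b⁻¹ * a) = (1 : MulAut Fr) := by group
    rw [← Matrix.det_mul, ← MM_mul hP (Pres_comp (Pres_inv hb) ha), e, MM_one, Matrix.det_one]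
  have hdet4 : (((MM (a⁻¹ * b)).det : ℤ) : ZMod 4) = 1 := by
    have := congrArg Matrix.det h1
    rw [Matrix.det_one, ← RingHom.mapMatrix_apply, ← RingHom.map_det] at this
    exact this
  have hd1 : (MM (a⁻¹ * b)).det = 1 := by
    rcases Int.eq_one_or_neg_one_of_mul_eq_one hdet with h | h
    · exact h
    · rw [h] at hdet4
      exfalso
      revert hdet4
      decide
  have e00 : ((MM (a⁻¹ * b) 0 0 : ℤ) : ZMod 4) = 1 := by
    have := congrFun (congrFun h1 0) 0
    simpa using this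
  have e01 : ((MM (a⁻¹ * b) 0 1 : ℤ) : ZMod 4) = 0 := by
    have := congrFun (congrFun h1 0) 1
    simpa using this
  have e10 : ((MM (a⁻¹ * b) 1 0 : ℤ) : ZMod 4) = 0 := by
    have := congrFun (congrFun h1 1) 0
    simpa using this
  rw [Matrix.det_fin_two] at hd1
  obtain ⟨u, ε, h2, h3⟩ := descent _ (MM (a⁻¹ * b) 0 0) (MM (a⁻¹ * b) 0 1) (MM (a⁻¹ * b) 1 0)
    (MM (a⁻¹ * b) 1 1) le_rfl hd1 (by
      have h5 : (((MM (a⁻¹ * b) 0 0 - 1 : ℤ)) : ZMod 4) = 0 := by push_cast; rw [e00]; ring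
      rw [ZMod.intCast_zmod_eq_zero_iff_dvd] at h5
      obtain ⟨t, ht⟩ := h5
      exact ⟨2 * t, by push_cast at ht; linarith⟩) (by
      rw [ZMod.intCast_zmod_eq_zero_iff_dvd] at e01
      obtain ⟨t, ht⟩ := e01
      exact ⟨2 * t, by push_cast at ht; linarith⟩) (by
      rw [ZMod.intCast_zmod_eq_zero_iff_dvd] at e10
      obtain ⟨t, ht⟩ := e10
      exact ⟨2 * t, by push_cast at ht; linarith⟩)
  refine ⟨u, hP, ε, h2, ?_⟩
  intro x
  rw [PV_MM]
  exact h3 x

section
variable {K : Type} [Field K] [Finite K] (ζ : Kˣ)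

theorem PP_fi : (PP ζ).FiniteIndex := by
  classical
  apply fi_crit (PP ζ) PR PR_fi (X := Af K)
    (fun σ => if h : ∃ u, Rel σ u then psi ζ h.choose else 1)
  rintro a ha b hb hab
  have ha' : ∃ u, Rel a u := ha
  have hb' : ∃ u, Rel b u := hb
  simp only [dif_pos ha', dif_pos hb'] at hab
  have h1 := ha'.choose_spec
  have h2 := hb'.choose_spec
  obtain ⟨h3, ε, h4, h5⟩ := h1.inv.mul h2
  exact ⟨h3, _, by rw [map_mul, map_inv, hab, inv_mul_cancel], ε, h4, h5⟩

end

end Q31QN
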