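import Mathlib
import Pool.Agent.Q31.QN.B
set_option autoImplicit false
set_option linter.unusedSimpArgs false

/-! Infinitely many finite quotients of `Q(3,6)`. -/

namespace Q31QN
open Pool.Agent.H270.Gau (Af Fr)
open H270R (FB phi phi_strong cc PV tau_pres lam Theta Theta_spec)

theorem exists_unit (p : ℕ) [Fact p.Prime] (hp : p ≡ 1 [MOD 3]) :
    ∃ ζ : (ZMod p)ˣ, ζ ^ 3 = 1 ∧ ζ ≠ 1 ∧ ζ ^ 2 ≠ 1 := by
  have hdvd : 3 ∣ Fintype.card (ZMod p)ˣ := by
    rw [ZMod.card_units]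
    exact (Nat.modEq_iff_dvd' (Fact.out : p.Prime).one_lt.le).1 hp.symm
  haveI : Fact (Nat.Prime 3) := ⟨by norm_num⟩
  obtain ⟨ζ, hζ⟩ := exists_prime_orderOf_dvd_card 3 hdvd
  refine ⟨ζ, by rw [← hζ]; exact pow_orderOf_eq_one ζ, ?_, ?_⟩
  · rintro rfl
    rw [orderOf_one] at hζ
    norm_num at hζ
  · intro h
    have := orderOf_dvd_of_pow_eq_one h
    rw [hζ] at this
    norm_num at this

/-- the normal closure of the sixth power of the Nielsen move -/
abbrev NC : Subgroup (MulAut Fr) := Subgroup.normalClosure {(H270Q.nielsen 3 (by norm_num)) ^ 6}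

theorem exists_quot (p : ℕ) [Fact p.Prime] (hp : p ≡ 1 [MOD 3]) :
    ∃ N : Subgroup (MulAut Fr ⧸ NC), N.Normal ∧ N.FiniteIndex ∧ p ∣ N.index := by
  obtain ⟨ζ, z0, z1, z2⟩ := exists_unit p hp
  have hN : NC ≤ (PP ζ).normalCore := by
    apply Subgroup.normalClosure_le_normal
    rw [Set.singleton_subset_iff]
    intro a
    exact ⟨tau_pres a 3, tau_SS z0 z1 z2 (by omega) a⟩
  have hfi : (PP ζ).FiniteIndex := PP_fi ζ
  have hfi2 : (PP ζ).normalCore.FiniteIndex := inferInstance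
  have hcomap : ((PP ζ).normalCore.map (QuotientGroup.mk' NC)).comap (QuotientGroup.mk' NC)
      = (PP ζ).normalCore := by
    rw [Subgroup.comap_map_eq, QuotientGroup.ker_mk', sup_eq_left.2 hN]
  have hnormal : ((PP ζ).normalCore.map (QuotientGroup.mk' NC)).Normal :=
    Subgroup.Normal.map inferInstance _ (QuotientGroup.mk'_surjective _)
  have hind : ((PP ζ).normalCore.map (QuotientGroup.mk' NC)).index = (PP ζ).normalCore.index := by
    conv_rhs => rw [← hcomap]
    exact (Subgroup.index_comap_of_surjective _ (QuotientGroup.mk'_surjective _)).symm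
  refine ⟨(PP ζ).normalCore.map (QuotientGroup.mk' NC), hnormal, ⟨?_⟩, ?_⟩
  · rw [hind]; exact hfi2.index_ne_zero
  · set n := ((PP ζ).normalCore.map (QuotientGroup.mk' NC)).index with hn
    have h1 : (QuotientGroup.mk' NC (Theta cc)) ^ n ∈ (PP ζ).normalCore.map (QuotientGroup.mk' NC) :=
      Subgroup.pow_index_mem _ _
    rw [← map_pow, ← map_pow, ← Subgroup.mem_comap, hcomap] at h1
    obtain ⟨_, u, h3, ε, h4, h5⟩ := Subgroup.normalCore_le _ h1
    have h6 : cc ^ n * u⁻¹ = 1 := by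
      apply phi_strong (ε := ε) _ h4
      intro v
      have h7 := h5 (phi u⁻¹ v)
      rw [(Theta_spec (cc ^ n)).2] at h7
      rw [map_mul]
      show phi (cc ^ n) (phi u⁻¹ v) = _
      rw [h7]
      congr 1
      rw [← LinearEquiv.mul_apply, ← map_mul, mul_inv_cancel, map_one]; rfl
    have h8 : cc ^ n = u := by
      rwa [mul_inv_eq_one] at h6
    rw [← ZMod.natCast_eq_zero_iff]
    exact psi_cc_ne ζ z1 (by rw [h8, h3])

theorem main : Set.Infinite {N : Subgroup (MulAut Fr ⧸ NC) | N.Normal ∧ N.FiniteIndex} := by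
  intro hfin
  have h1 : (Subgroup.index '' {N : Subgroup (MulAut Fr ⧸ NC) | N.Normal ∧ N.FiniteIndex}).Finite :=
    hfin.image _
  obtain ⟨B, hB⟩ := h1.bddAbove
  have h2 := Nat.infinite_setOf_prime_modEq_one (k := 3) (by norm_num)
  obtain ⟨p, ⟨hp, hp3⟩, hpB⟩ := h2.exists_gt B
  haveI : Fact p.Prime := ⟨hp⟩
  obtain ⟨N, hN1, hN2, hN3⟩ := exists_quot p hp3
  have h3 : N.index ≤ B := hB ⟨N, ⟨hN1, hN2⟩, rfl⟩
  have h4 : p ≤ N.index := Nat.le_of_dvd (Nat.pos_of_ne_zero hN2.index_ne_zero) hN3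
  omega

end Q31QN
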